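import Pool.Agent.R677.Baer.Mod

/-!
# A pseudocentral Baer group that is not a Fitting group
-/

set_option autoImplicit false

namespace Pool.Agent.Results.MP_a7b7fa_al.PseudocentralBaer

/-- `G` is pseudocentral: every element of `G` lies in the normal closure of the centralizer of
every element of `G`. -/
def IsPseudocentral (G : Type) [Group G] : Prop :=
  ∀ g h : G, h ∈ Subgroup.normalClosure (Subgroup.centralizer {g} : Set G)

/-- `G` is a Baer group: every cyclic subgroup is subnormal. -/
def IsBaer (G : Type) [Group G] : Prop :=
  ∀ g : G, (Subgroup.zpowers g).IsSubnormal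

/-- `G` is a Fitting group: every element lies in a nilpotent normal subgroup. -/
def IsFitting (G : Type) [Group G] : Prop :=
  ∀ g : G, ∃ N : Subgroup G, N.Normal ∧ Group.IsNilpotent N ∧ g ∈ N

open Pool.Agent.R677.Baer in
/-- There is a group which is pseudocentral and a Baer group, but not a Fitting group. -/
theorem result : ∃ (G : Type) (_ : Group G), IsPseudocentral G ∧ IsBaer G ∧ ¬ IsFitting G := by
  refine ⟨SD VV M, inferInstance, ?_, baer_SD baer_M hu, ?_⟩
  · intro g h
    rw [pseudo_SD hA hD g]
    trivial
  · intro h
    obtain ⟨N, hN, hnil, hg⟩ := h (SD.inM (tM 0 1 one_pos))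
    exact not_fitting N hN hnil hg

end Pool.Agent.Results.MP_a7b7fa_al.PseudocentralBaer
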